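import Pool.Agent.H622R3.SP.Good
import Pool.Agent.H622R3.SP.Metric

/-!
# MP_31d0eb_nt: primes in all short intervals below the powers of almost every real number

For `0 < δ < 1` there are `K`, `lam`, `c > 0` with the following property. Let `b 1, b 2, …` be ANY
sequence of real numbers tending to infinity. For almost every real `α > 1` there are infinitely many `N`
such that at least `c N` of the numbers `x = α ^ (b n)`, `n < N`, satisfy
`(1 - δ) H / log x ≤ #{primes in (x - H, x)} ≤ lam H / log x` simultaneously for all `H` between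
`K log x` and `x`. In particular `(x - x ^ ε, x)` contains a prime for these `x`, for every fixed `ε > 0`.

The sequence can grow as fast as one likes, e.g. `b n = 2 ^ n` or `b n = 2 ^ (2 ^ n)`, so that the
numbers `α ^ (b n)` are as sparse as one likes.

Source: `Pool.Agent.H622R3.SP` of the starting library (`Good.lean`, `Metric.lean`), never handed in.
The proof combines the second moment method at all scales (a positive proportion of all `x`) with the
distribution of `α ^ (b n)` for almost all `α`.
-/

set_option autoImplicit false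

open Filter Topology MeasureTheory

namespace Pool.Agent.Results.MP_31d0eb_nt.AllScalesAtRealPowers

/-- The number of primes in the open interval `(x - H, x)`. -/
noncomputable def primesBelow (x H : ℝ) : ℕ := {p : ℕ | p.Prime ∧ x - H < p ∧ (p : ℝ) < x}.ncard

/-- For all `H` between `K log x` and `x` the number of primes in `(x - H, x)` is between
`(1 - δ) H / log x` and `lam H / log x`. -/
def GoodAtAllScales (δ K lam x : ℝ) : Prop := ∀ H : ℝ, K * Real.log x ≤ H → H ≤ x →
  (1 - δ) * H / Real.log x ≤ primesBelow x H ∧ (primesBelow x H : ℝ) ≤ lam * H / Real.log x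

/-- **Main theorem.** -/
theorem result (δ : ℝ) (hδ0 : 0 < δ) (hδ1 : δ < 1) : ∃ K lam c : ℝ, 0 < K ∧ 0 < lam ∧ 0 < c ∧
    ∀ b : ℕ → ℝ, Tendsto b atTop atTop → ∀ᵐ α : ℝ, 1 < α →
      ∃ᶠ N : ℕ in atTop, c * N ≤ ({n : ℕ | n < N ∧ GoodAtAllScales δ K lam (α ^ b n)}.ncard : ℝ) := by
  classical
  obtain ⟨K, lam, c, hK, hlam, hc, h⟩ := Pool.Agent.H622R3.SP.back_all_scales δ hδ0 hδ1
  refine ⟨K, lam, c / 2, hK, hlam, by positivity, fun b hb => ?_⟩
  obtain ⟨S, hS⟩ : ∃ S : Set ℕ, S = {m : ℕ | ∀ x : ℝ, (m : ℝ) < x → x < m + 1 →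
      Pool.Agent.H622R3.SP.AS δ K lam x} := ⟨_, rfl⟩
  have h2 : ∀ᶠ N : ℕ in atTop,
      c * N ≤ (((Finset.range N).filter (fun m => m ∈ S)).card : ℝ) := by
    filter_upwards [h] with N hN
    refine hN.trans (le_of_eq ?_)
    congr 2
    ext m
    simp [hS]
  filter_upwards [Pool.Agent.H622R3.SP.metric S c hc h2 b hb] with α hα hα1
  refine (hα hα1).mono fun N hN => ?_
  refine hN.trans ?_
  rw [← Set.ncard_coe_finset]
  apply Nat.cast_le.2
  refine Set.ncard_le_ncard ?_ ((Set.finite_Iio N).subset fun n hn => hn.1)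
  intro n hn
  rw [Finset.mem_coe, Finset.mem_filter, Finset.mem_range] at hn
  obtain ⟨hnN, m, hm, h3, h4⟩ := hn
  rw [hS] at hm
  exact ⟨hnN, hm _ h3 h4⟩

end Pool.Agent.Results.MP_31d0eb_nt.AllScalesAtRealPowers
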