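import Pool.Agent.V11237.LP.Short

set_option autoImplicit false

/-!
# Almost primes in every interval `(X, X + H]` with `H ≥ X ^ θ`: the gap laws

Call `m` good if it has no prime factor up to `X ^ (1 / r)`. In EVERY interval `(u, u + Y]` with `X ≤ u`, `u + Y ≤ 2 X` and `Y ≥ X ^ θ` the distances of the
good integers to the `l`-th good integer before them have the Gamma distributions of a Poisson process of
density `U`, the product of `1 - 1 / p` over the primes `p ≤ X ^ (1 / r)`, up to `ε`, for every `l ≤ l₀` and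
all distances (and for every `l` if the distance is at most `x₀ / U`). With `T = 0` this is the asymptotic
number of the good integers.
-/

namespace Pool.Agent.Results.MP_31d0eb_nt.AlmostPrimeGapLaws

open Finset Filter
open Pool.Agent.V11237.LP.Short

/-- **The laws of the gaps of the almost primes in all short intervals.** For all large `r` and `X` and every interval `(u, u + Y]` with `X ≤ u`, `u + Y ≤ 2 X`, `Y ≥ X ^ θ`. -/
theorem result (θ : ℝ) (hθ : 0 < θ) (l₀ : ℕ) (x₀ ε : ℝ) (hε : 0 < ε) :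
    ∃ r₀ : ℕ, ∀ r : ℕ, r₀ ≤ r → ∃ X₀ : ℕ, ∀ X : ℕ, X₀ ≤ X → 
      (∀ m : ℕ, m ≠ 0 → m ≤ 2 * X → Good X r m → m.primeFactorsList.length ≤ 2 * r) ∧
      ∀ u Y : ℕ, X ≤ u ∧ u + Y ≤ 2 * X → (X : ℝ) ^ θ ≤ Y → ∀ l T : ℕ, (l ≤ l₀ ∨ T * U X r ≤ x₀) →
        |(G X r l T u Y : ℝ) - Y * U X r *
          ∑ j ∈ range l, Real.exp (-(T * U X r)) * (T * U X r) ^ j / j.factorial| ≤
        ε * (Y * U X r) := by
  obtain ⟨r0, _, h0⟩ := gaps θ hθ l₀ x₀ ε hε
  refine ⟨max r0 1, ?_⟩
  intro r hr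
  obtain ⟨N0, hN0⟩ := h0 r ((le_max_left _ _).trans hr)
  refine ⟨max N0 2, ?_⟩
  intro X hX
  have hb : 2 ≤ X := (le_max_right _ _).trans hX
  refine ⟨?_, fun u Y _ hY l T hT => hN0 X ((le_max_left _ _).trans hX) u Y hY l T hT⟩
  intro m hm0 hm hg
  exact few ((le_max_right _ _).trans hr) hb hm0 (by nlinarith) hg

end Pool.Agent.Results.MP_31d0eb_nt.AlmostPrimeGapLaws
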