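import Pool.Agent.V1161.VC.Prim
import Pool.Agent.Results.MP_31d0eb_nt.AllScales

/-!
# Primes in short intervals at polynomial distances

No hypothesis is assumed.  For every degree `d` and all `lam, ε > 0` there are an integer `M` and `θ > 0` such that
for all large `X`, all `lam log X ≤ h ≤ θ X`, every set `A` of primes in `(X, 2X]` and every real polynomial
`b(x) = b_1 x + … + b_d x^d` with `|b_r| ≤ θ X` some value `b(m)`, `1 ≤ m ≤ M`, satisfies
`∑_{p, q ∈ A} (1 - |q - p - b(m)| / h)_+ ≥ h |A|² / X - ε h X / log² X`; for the set of all primes the right hand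
side is `(1 - ε) h X / log² X`, the value predicted by the Hardy-Littlewood conjectures on average.  Moreover there
are points `t`, in a positive proportion that does not depend on the degree, such that the numbers of primes in
`(t, t + H]` and in `(t + b(m), t + b(m) + H]` have the right order of magnitude for all `K log t ≤ H ≤ t / 2`
simultaneously.

Proof.  A finitely supported probability measure on the positive integers whose polynomial Fourier transform is
nowhere less than `-ε` (`V1161.VC`), second moments of the numbers of primes in short intervals (upper bound sieve)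
and the starting result `AllScales`.
-/

set_option autoImplicit false

open Filter Topology MeasureTheory

namespace Pool.Agent.Results.MP_31d0eb_nt.PolynomialReturns

/-- the value at `m` of the real polynomial without constant term with coefficients `β` -/
noncomputable def poly {d : ℕ} (β : Fin d → ℝ) (m : ℕ) : ℝ := ∑ r, β r * (m : ℝ) ^ ((r : ℕ) + 1)

/-- the pairs of elements of `A` with difference close to `s`, with weight `(1 - |q - p - s| / h)_+` -/
noncomputable def pairs (A : Finset ℕ) (s h : ℝ) : ℝ :=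
  ∑ p ∈ A, ∑ q ∈ A, max 0 (1 - |(q : ℝ) - p - s| / h)

/-- the primes in `(X, 2X]` -/
def primes (X : ℕ) : Finset ℕ := (Finset.Ioc X (2 * X)).filter Nat.Prime

/-- the number of primes in `(t, t + H]` -/
noncomputable def primesIn (t H : ℝ) : ℕ := {p : ℕ | p.Prime ∧ t < p ∧ (p : ℝ) ≤ t + H}.ncard

/-- for all `H` between `K log t` and `t / 2` the number of primes in `(t, t + H]` is between
`(1 - δ) H / log t` and `lam H / log t` -/
def GoodAtAllScales (δ K lam t : ℝ) : Prop := ∀ H : ℝ, K * Real.log t ≤ H → H ≤ t / 2 →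
  (1 - δ) * H / Real.log t ≤ primesIn t H ∧ (primesIn t H : ℝ) ≤ lam * H / Real.log t

lemma pi_fin (t H : ℝ) : {p : ℕ | p.Prime ∧ t < p ∧ (p : ℝ) ≤ t + H}.Finite := by
  refine (Set.finite_Iic ⌊t + H⌋₊).subset ?_
  rintro p ⟨h1, h2, h3⟩
  exact Nat.le_floor h3

lemma pi_low {n : ℕ} {t H : ℝ} (h1 : t < n + 1) (h0 : (n : ℝ) ≤ t) (hH : 0 ≤ H) :
    Pool.Agent.H357R2.SI.piS n H ≤ primesIn t H := by
  unfold Pool.Agent.H357R2.SI.piS primesIn
  rw [← Set.ncard_coe_finset]
  apply Set.ncard_le_ncard _ (pi_fin t H)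
  intro p hp
  rw [Finset.mem_coe, Finset.mem_filter, Finset.mem_Ioc, Nat.floor_natCast] at hp
  obtain ⟨⟨h2, h3⟩, h4⟩ := hp
  refine ⟨h4, ?_, ?_⟩
  · have : ((n + 1 : ℕ) : ℝ) ≤ p := by exact_mod_cast h2
    push_cast at this
    linarith
  · have h5 : (p : ℝ) ≤ n + H := by
      rw [Nat.le_floor_iff (by positivity)] at h3
      exact h3
    linarith

lemma pi_up {n : ℕ} {t H : ℝ} (h1 : t < n + 1) (h0 : (n : ℝ) ≤ t) :
    primesIn t H ≤ Pool.Agent.H357R2.SI.piS n (H + 1) := by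
  unfold Pool.Agent.H357R2.SI.piS primesIn
  rw [← Set.ncard_coe_finset]
  apply Set.ncard_le_ncard _ (Finset.finite_toSet _)
  rintro p ⟨h4, h2, h3⟩
  rw [Finset.mem_coe, Finset.mem_filter, Finset.mem_Ioc, Nat.floor_natCast]
  refine ⟨⟨?_, ?_⟩, h4⟩
  · have : (n : ℝ) < p := by linarith
    exact_mod_cast this
  · apply Nat.le_floor
    linarith

lemma good_of {δ K lam : ℝ} (hδ1 : δ < 1) (hK : 0 < K) (hlam : 0 < lam) {n : ℕ} (hn : 3 ≤ n)
    (hg : ∀ H : ℝ, K * Real.log n ≤ H → H ≤ n →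
      (1 - δ) * H / Real.log n ≤ Pool.Agent.H357R2.SI.piS n H ∧
        (Pool.Agent.H357R2.SI.piS n H : ℝ) ≤ lam * H / Real.log n) {t : ℝ} (h0 : (n : ℝ) ≤ t)
    (h1 : t < n + 1) : GoodAtAllScales δ K (2 * lam * (1 + 1 / K)) t := by
  intro H hH1 hH2
  have hn3 : (3 : ℝ) ≤ n := by exact_mod_cast hn
  have hln1 : 1 ≤ Real.log n := by
    rw [Real.le_log_iff_exp_le (by linarith)]
    linarith [Real.exp_one_lt_d9]
  have hlog : Real.log n ≤ Real.log t := Real.log_le_log (by linarith) h0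
  have hlt0 : 0 < Real.log t := by linarith
  have hlog2 : Real.log t ≤ 2 * Real.log n := by
    have h2 : Real.log t ≤ Real.log ((n : ℝ) ^ 2) := Real.log_le_log (by linarith) (by nlinarith)
    rw [Real.log_pow] at h2
    exact_mod_cast h2
  have hKn : K * Real.log n ≤ K * Real.log t := mul_le_mul_of_nonneg_left hlog hK.le
  have hHK : K * 1 ≤ H := by
    have := mul_le_mul_of_nonneg_left (hln1.trans hlog) hK.le
    linarith
  have hH0 : 0 < H := by linarith
  obtain ⟨g1, -⟩ := hg H (by linarith) (by linarith)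
  obtain ⟨-, g2⟩ := hg (H + 1) (by linarith) (by linarith)
  constructor
  · have h2 : (1 - δ) * H / Real.log t ≤ (1 - δ) * H / Real.log n := by
      apply div_le_div_of_nonneg_left _ (by linarith) hlog
      have : 0 < 1 - δ := by linarith
      positivity
    refine h2.trans (g1.trans ?_)
    exact_mod_cast pi_low h1 h0 hH0.le
  · have h2 : (primesIn t H : ℝ) ≤ Pool.Agent.H357R2.SI.piS n (H + 1) := by
      exact_mod_cast pi_up h1 h0
    refine h2.trans (g2.trans ?_)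
    have h3 : H + 1 ≤ (1 + 1 / K) * H := by
      have : 1 ≤ 1 / K * H := by
        rw [one_div, inv_mul_eq_div, le_div_iff₀ hK]
        linarith
      linarith
    rw [div_le_div_iff₀ (by linarith) hlt0]
    calc lam * (H + 1) * Real.log t ≤ lam * ((1 + 1 / K) * H) * (2 * Real.log n) := by
          apply mul_le_mul _ hlog2 hlt0.le (by positivity)
          exact mul_le_mul_of_nonneg_left h3 hlam.le
      _ = _ := by ring

/-- the number of primes in `(X, 2X]` -/
lemma primes_card {η : ℝ} (hη : 0 < η) (hη1 : η ≤ 1) : ∃ X₀ : ℕ, 3 ≤ X₀ ∧ ∀ X : ℕ, X₀ ≤ X →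
    (1 - η) * X / Real.log X ≤ (primes X).card := by
  obtain ⟨X₁, hX₁, hpnt⟩ := Pool.Agent.H357R2.SI.pnt (η / 8) (by positivity)
  have h1 : ∀ᶠ X : ℕ in atTop, 8 / η ≤ Real.log X :=
    (Real.tendsto_log_atTop.comp tendsto_natCast_atTop_atTop).eventually_ge_atTop _
  obtain ⟨X₂, hX₂⟩ := h1.exists_forall_of_atTop
  refine ⟨max X₁ X₂, hX₁.trans (le_max_left _ _), fun X hX => ?_⟩
  have hXX1 : X₁ ≤ X := (le_max_left _ _).trans hX
  have h8 := hX₂ X ((le_max_right _ _).trans hX)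
  have hX3 : (3 : ℝ) ≤ X := by exact_mod_cast hX₁.trans hXX1
  have hX0 : (0 : ℝ) < X := by linarith
  have hL0 : 0 < Real.log X := lt_of_lt_of_le (by positivity) h8
  have h2X : Real.log ((2 * X : ℕ) : ℝ) ≤ (1 + η / 8) * Real.log X := by
    push_cast
    rw [Real.log_mul (by norm_num) hX0.ne']
    have h2 : Real.log 2 ≤ 1 := by linarith [Real.log_two_lt_d9]
    have h3 : 1 ≤ η / 8 * Real.log X := by
      rw [div_le_iff₀ hη] at h8
      linarith
    linarith
  have h2X0 : 0 < Real.log ((2 * X : ℕ) : ℝ) := Real.log_pos (by push_cast; linarith)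
  have e1 : ((primes X).card : ℝ) = Nat.primeCounting (2 * X) - Nat.primeCounting X := by
    have h3 := Pool.Agent.H357R2.SI.pc_eq_sub (show X ≤ 2 * X by omega)
    rw [← h3]
    rfl
  rw [e1]
  have g1 := (hpnt (2 * X) (by omega)).1
  have g2 := (hpnt X hXX1).2
  have g3 : (2 - η / 2) * (X / Real.log X) ≤ (1 - η / 8) * ((2 * X : ℕ) : ℝ) / Real.log ((2 * X : ℕ) : ℝ) := by
    rw [le_div_iff₀ h2X0]
    have h4 : 0 ≤ (2 - η / 2) * (X / Real.log X) := by
      have : 0 ≤ 2 - η / 2 := by linarith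
      positivity
    refine (mul_le_mul_of_nonneg_left h2X h4).trans ?_
    have h5 : (2 - η / 2) * (X / Real.log X) * ((1 + η / 8) * Real.log X) =
        ((2 - η / 2) * (1 + η / 8)) * X := by
      field_simp
    rw [h5]
    push_cast
    have h6 : (2 - η / 2) * (1 + η / 8) ≤ (1 - η / 8) * 2 := by nlinarith
    have := mul_le_mul_of_nonneg_right h6 hX0.le
    linarith
  have g4 : (1 + η / 8) * (X : ℝ) / Real.log X = (1 + η / 8) * (X / Real.log X) := by ring
  have g5 : (1 - η) * (X : ℝ) / Real.log X = (1 - η) * (X / Real.log X) := by ring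
  rw [g4] at g2
  rw [g5]
  have h7 : 0 ≤ X / Real.log X := by positivity
  nlinarith

/-- **Primes in short intervals at polynomial distances.** -/
theorem result :
    -- dense sets of primes
    (∀ (d : ℕ) (lam ε : ℝ), 0 < lam → 0 < ε → ∃ (M : ℕ) (θ : ℝ) (X₀ : ℕ), 1 ≤ M ∧ 0 < θ ∧ 3 ≤ X₀ ∧
      ∀ X : ℕ, X₀ ≤ X → ∀ h : ℝ, lam * Real.log X ≤ h → h ≤ θ * X → ∀ A : Finset ℕ, A ⊆ primes X →
        ∀ β : Fin d → ℝ, (∀ r, |β r| ≤ θ * X) → ∃ m : ℕ, 1 ≤ m ∧ m ≤ M ∧
          h * (A.card : ℝ) ^ 2 / X - ε * (h * X / Real.log X ^ 2) ≤ pairs A (poly β m) h) ∧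
    -- all primes
    (∀ (d : ℕ) (lam ε : ℝ), 0 < lam → 0 < ε → ε < 1 → ∃ (M : ℕ) (θ : ℝ) (X₀ : ℕ), 1 ≤ M ∧ 0 < θ ∧ 3 ≤ X₀ ∧
      ∀ X : ℕ, X₀ ≤ X → ∀ h : ℝ, lam * Real.log X ≤ h → h ≤ θ * X →
        ∀ β : Fin d → ℝ, (∀ r, |β r| ≤ θ * X) → ∃ m : ℕ, 1 ≤ m ∧ m ≤ M ∧
          (1 - ε) * (h * X / Real.log X ^ 2) ≤ pairs (primes X) (poly β m) h) ∧
    -- short intervals, all scales at once
    (∀ δ : ℝ, 0 < δ → δ < 1 → ∃ K lam c : ℝ, 0 < K ∧ 0 < lam ∧ 0 < c ∧
      ∀ d : ℕ, ∃ (M : ℕ) (θ : ℝ) (N₀ : ℕ), 1 ≤ M ∧ 0 < θ ∧ ∀ N : ℕ, N₀ ≤ N →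
        ∀ β : Fin d → ℝ, (∀ r, |β r| ≤ θ * N) → ∃ m : ℕ, 1 ≤ m ∧ m ≤ M ∧
          ENNReal.ofReal (c * N) ≤ volume {t : ℝ | (3 ≤ t ∧ t ≤ N ∧ GoodAtAllScales δ K lam t) ∧
            3 ≤ t + poly β m ∧ t + poly β m ≤ N ∧ GoodAtAllScales δ K lam (t + poly β m)}) := by
  classical
  have part1 : ∀ (d : ℕ) (lam ε : ℝ), 0 < lam → 0 < ε → ∃ (M : ℕ) (θ : ℝ) (X₀ : ℕ),
      1 ≤ M ∧ 0 < θ ∧ 3 ≤ X₀ ∧
      ∀ X : ℕ, X₀ ≤ X → ∀ h : ℝ, lam * Real.log X ≤ h → h ≤ θ * X → ∀ A : Finset ℕ, A ⊆ primes X →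
        ∀ β : Fin d → ℝ, (∀ r, |β r| ≤ θ * X) → ∃ m : ℕ, 1 ≤ m ∧ m ≤ M ∧
          h * (A.card : ℝ) ^ 2 / X - ε * (h * X / Real.log X ^ 2) ≤ pairs A (poly β m) h := by
    intro d lam ε hlam hε
    obtain ⟨M, θ, X₀, hM, hθ, -, hX₀, h1⟩ := V1161.VC.corr_main d hlam hε
    refine ⟨M, θ, X₀, hM, hθ, hX₀, fun X hX h hh1 hh2 A hA β hβ => ?_⟩
    refine h1 X hX h hh1 hh2 A (fun p hp => ?_) β hβ
    have h2 := hA hp
    unfold primes at h2
    rw [Finset.mem_filter, Finset.mem_Ioc] at h2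
    exact ⟨h2.2, h2.1⟩
  refine ⟨part1, fun d lam ε hlam hε hε1 => ?_, fun δ hδ0 hδ1 => ?_⟩
  · obtain ⟨M, θ, X₁, hM, hθ, hX₁, h1⟩ := part1 d lam (ε / 2) hlam (by positivity)
    obtain ⟨X₂, hX₂, h2⟩ := primes_card (η := ε / 4) (by positivity) (by linarith)
    refine ⟨M, θ, max X₁ X₂, hM, hθ, hX₁.trans (le_max_left _ _), fun X hX h hh1 hh2 β hβ => ?_⟩
    obtain ⟨m, hm1, hm2, hm⟩ := h1 X ((le_max_left _ _).trans hX) h hh1 hh2 (primes X)
      (Finset.Subset.refl _) β hβ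
    refine ⟨m, hm1, hm2, le_trans ?_ hm⟩
    have h3 := h2 X ((le_max_right _ _).trans hX)
    have hX3 : (3 : ℝ) ≤ X := by exact_mod_cast hX₁.trans ((le_max_left _ _).trans hX)
    have hX0 : (0 : ℝ) < X := by linarith
    have hL0 : 0 < Real.log X := Real.log_pos (by linarith)
    have hh0 : 0 < h := lt_of_lt_of_le (by positivity) hh1
    have h4 : ((1 - ε / 4) * X / Real.log X) ^ 2 ≤ ((primes X).card : ℝ) ^ 2 := by
      apply pow_le_pow_left₀ _ h3
      have : 0 ≤ 1 - ε / 4 := by linarith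
      positivity
    have h5 : h * ((1 - ε / 4) * X / Real.log X) ^ 2 / X ≤ h * ((primes X).card : ℝ) ^ 2 / X := by
      apply div_le_div_of_nonneg_right _ hX0.le
      exact mul_le_mul_of_nonneg_left h4 hh0.le
    have h6 : h * ((1 - ε / 4) * X / Real.log X) ^ 2 / X =
        (1 - ε / 4) ^ 2 * (h * X / Real.log X ^ 2) := by
      field_simp
    rw [h6] at h5
    have h7 : 0 ≤ h * X / Real.log X ^ 2 := by positivity
    have h8 : (1 - ε / 2) * (h * X / Real.log X ^ 2) ≤ (1 - ε / 4) ^ 2 * (h * X / Real.log X ^ 2) := by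
      apply mul_le_mul_of_nonneg_right _ h7
      nlinarith [sq_nonneg ε]
    linarith
  · obtain ⟨K, lam, c, hK, hlam, hc, hgood⟩ := AllScales.result δ hδ0 hδ1
    obtain ⟨N₁, hN₁⟩ := hgood.exists_forall_of_atTop
    refine ⟨K, 2 * lam * (1 + 1 / K), c ^ 2 / 8, hK, by positivity, by positivity, fun d => ?_⟩
    obtain ⟨M, θ, hM, hθ, hpoly⟩ := V1161.VC.real_poly_set d (ε := c ^ 2 / 8) (by positivity)
    refine ⟨M, θ, max (max N₁ 1) ⌈6 / c⌉₊, hM, hθ, fun N hN β hβ => ?_⟩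
    have hNN1 := hN₁ N ((le_max_left _ _).trans ((le_max_left _ _).trans hN))
    have hN1 : 1 ≤ N := (le_max_right _ _).trans ((le_max_left _ _).trans hN)
    have hN0 : (0 : ℝ) < N := by exact_mod_cast hN1
    have hN6 : 6 / c ≤ N := by
      have h1 : ⌈6 / c⌉₊ ≤ N := (le_max_right _ _).trans hN
      exact (Nat.le_ceil _).trans (by exact_mod_cast h1)
    obtain ⟨S, hS⟩ : ∃ S : Finset ℕ, S = (Finset.range N).filter (fun n : ℕ => 3 ≤ n ∧
      ∀ H : ℝ, K * Real.log n ≤ H → H ≤ n →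
        (1 - δ) * H / Real.log n ≤ Pool.Agent.H357R2.SI.piS n H ∧
          (Pool.Agent.H357R2.SI.piS n H : ℝ) ≤ lam * H / Real.log n) := ⟨_, rfl⟩
    have hScard : c / 2 * N ≤ S.card := by
      have h1 : ((Finset.range N).filter (fun n : ℕ => ∀ H : ℝ, K * Real.log n ≤ H → H ≤ n →
          (1 - δ) * H / Real.log n ≤ Pool.Agent.H357R2.SI.piS n H ∧
            (Pool.Agent.H357R2.SI.piS n H : ℝ) ≤ lam * H / Real.log n)) ⊆ S ∪ Finset.range 3 := by
        intro n hn
        rw [Finset.mem_filter] at hn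
        rw [Finset.mem_union, hS, Finset.mem_filter]
        rcases lt_or_ge n 3 with h2 | h2
        · exact Or.inr (Finset.mem_range.2 h2)
        · exact Or.inl ⟨hn.1, h2, hn.2⟩
      have h2 := (Finset.card_le_card h1).trans (Finset.card_union_le _ _)
      rw [Finset.card_range] at h2
      have h3 : (((Finset.range N).filter (fun n : ℕ => ∀ H : ℝ, K * Real.log n ≤ H → H ≤ n →
          (1 - δ) * H / Real.log n ≤ Pool.Agent.H357R2.SI.piS n H ∧
            (Pool.Agent.H357R2.SI.piS n H : ℝ) ≤ lam * H / Real.log n)).card : ℝ) ≤ S.card + 3 := by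
        exact_mod_cast h2
      have h4 : 3 ≤ c / 2 * N := by
        rw [div_le_iff₀ hc] at hN6
        linarith
      linarith
    obtain ⟨G, hG⟩ : ∃ G : Set ℝ, G = ⋃ n ∈ S, Set.Ico (n : ℝ) (n + 1) := ⟨_, rfl⟩
    have hGm : MeasurableSet G := by
      rw [hG]
      exact Finset.measurableSet_biUnion _ fun n _ => measurableSet_Ico
    have hGgood : ∀ t ∈ G, 3 ≤ t ∧ t ≤ N ∧ GoodAtAllScales δ K (2 * lam * (1 + 1 / K)) t := by
      intro t ht
      rw [hG, Set.mem_iUnion₂] at ht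
      obtain ⟨n, hn, ht1, ht2⟩ := ht
      rw [hS, Finset.mem_filter, Finset.mem_range] at hn
      obtain ⟨hn1, hn2, hn3⟩ := hn
      have h3 : (3 : ℝ) ≤ n := by exact_mod_cast hn2
      have h4 : (n : ℝ) + 1 ≤ N := by exact_mod_cast hn1
      exact ⟨by linarith, by linarith, good_of hδ1 hK hlam hn2 hn3 ht1 ht2⟩
    have hGs : G ⊆ Set.Icc (0 : ℝ) (0 + N) := by
      intro t ht
      obtain ⟨h1, h2, -⟩ := hGgood t ht
      exact ⟨by linarith, by linarith⟩
    have hGv : ENNReal.ofReal (c / 2 * N) ≤ volume G := by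
      have h1 : volume G = (S.card : ENNReal) := by
        rw [hG, measure_biUnion_finset ?_ fun n _ => measurableSet_Ico]
        · have : ∀ n ∈ S, volume (Set.Ico (n : ℝ) (n + 1)) = 1 := by
            intro n _
            rw [Real.volume_Ico]
            simp
          rw [Finset.sum_congr rfl this, Finset.sum_const, nsmul_eq_mul, mul_one]
        · intro n _ m _ hnm
          rw [Function.onFun, Set.disjoint_left]
          rintro x ⟨hx1, hx2⟩ ⟨hx3, hx4⟩
          apply hnm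
          have h2 : (n : ℝ) < m + 1 := by linarith
          have h3 : (m : ℝ) < n + 1 := by linarith
          have h2' : n < m + 1 := by exact_mod_cast h2
          have h3' : m < n + 1 := by exact_mod_cast h3
          omega
      rw [h1, ← ENNReal.ofReal_natCast]
      exact ENNReal.ofReal_le_ofReal hScard
    obtain ⟨m, hm1, hm2, hm⟩ := hpoly 0 N hN0 G hGm hGs (c / 2) (by positivity) hGv β hβ
    refine ⟨m, hm1, hm2, ?_⟩
    have e1 : (c / 2) ^ 2 - c ^ 2 / 8 = c ^ 2 / 8 := by ring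
    rw [e1] at hm
    refine hm.trans (measure_mono ?_)
    rintro t ⟨h1, h2⟩
    exact ⟨hGgood t h1, hGgood _ h2⟩

end Pool.Agent.Results.MP_31d0eb_nt.PolynomialReturns
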